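import Pool.Agent.H906.BD.Final

/-! # Abundance for compact Kähler manifolds and orbifolds covered by `D × ℂ^b`

Let `D ⊆ ℂ^a` be an arbitrary bounded domain and let a group `Δ` act by biholomorphic maps,
properly discontinuously and with compact quotient, on `D × ℂ^b`. Fixed points are allowed, so that
`X = (D × ℂ^b) / Δ` is a compact complex manifold or orbifold of dimension `a + b`. We assume that a
subgroup of finite index preserves the splitting of the tangent bundle into `T_D` and the `b`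
coordinate lines of `ℂ^b`: on some finite etale cover of `X`, `T_X = E ⊕ L_1 ⊕ ... ⊕ L_b`, where the
summand `E` of rank `a` comes from `D`; no splitting of `E` is assumed.

We prove that if `X` is Kähler then its canonical bundle is semiample. No projectivity is assumed,
no symmetry or homogeneity of `D`, and no relation between the Kähler metric and the splitting.
Without the Kähler metric the statement fails (Inoue surfaces, `D` the half-plane, `b = 1`).

Main steps: if the image of the group in `Aut D` were not discrete, its closure would contain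
one-parameter groups; the derived series produces an abelian invariant family of holomorphic vector
fields on `D`, which is totally real (Liouville) and finite-dimensional; the logarithm of the
Carathéodory-type volume of these fields is a strictly plurisubharmonic function on the universal
cover with an additive character, which contradicts Stokes' theorem for the Kähler metric. So the
image is discrete, its kernel acts on `ℂ^b` with finite linear parts, and Poincaré series with a
unitary character generate a power of the canonical bundle. -/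

open Matrix
open scoped ComplexOrder

namespace Pool.Agent.Results.MP_97d78d_ag.BoundedDomainTimesCb

/-- The space `ℂ^a × ℂ^b`. -/
abbrev Pt (a b : ℕ) := Fin a ⊕ Fin b → ℂ

/-- The complex manifold `D × ℂ^b`. -/
def Dom {a : ℕ} (D : Set (Fin a → ℂ)) (b : ℕ) : Set (Pt a b) := {x | (fun i => x (Sum.inl i)) ∈ D}

/-- `D` is a bounded domain of `ℂ^a`. -/
structure IsBoundedDomain {a : ℕ} (D : Set (Fin a → ℂ)) : Prop where
  isOpen : IsOpen D
  connected : IsConnected D
  bounded : Bornology.IsBounded D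

/-- The complex Jacobian matrix `(∂ f_k / ∂ x_i)` of `f`. -/
noncomputable def Jac {a b : ℕ} (f : Pt a b → Pt a b) (x : Pt a b) :
    Matrix (Fin a ⊕ Fin b) (Fin a ⊕ Fin b) ℂ :=
  Matrix.of fun k i => fderiv ℂ f x (Pi.single i 1) k

/-- The group `Δ` acts on `D × ℂ^b` by holomorphic maps, properly discontinuously and with compact
quotient. -/
structure IsUniform {a b : ℕ} (D : Set (Fin a → ℂ)) {Δ : Type*} [Group Δ]
    (ρ : Δ → Pt a b → Pt a b) : Prop where
  maps : ∀ δ, ∀ x ∈ Dom D b, ρ δ x ∈ Dom D b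
  one : ∀ x ∈ Dom D b, ρ 1 x = x
  mul : ∀ δ ε, ∀ x ∈ Dom D b, ρ (δ * ε) x = ρ δ (ρ ε x)
  hol : ∀ δ, DifferentiableOn ℂ (ρ δ) (Dom D b)
  properlyDiscontinuous : ∀ K ⊆ Dom D b, IsCompact K → {δ : Δ | (ρ δ '' K ∩ K).Nonempty}.Finite
  cocompact : ∃ K ⊆ Dom D b, IsCompact K ∧ ∀ x ∈ Dom D b, ∃ δ, ρ δ x ∈ K

/-- The elements of `Δ0` preserve the subbundle `T_D` of the tangent bundle of `D × ℂ^b` and each
of the `b` coordinate line subbundles of `ℂ^b`: the entries of their Jacobian matrices vanish
outside of the block of `D` and of the diagonal. -/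
def PreservesSplitting {a b : ℕ} (D : Set (Fin a → ℂ)) {Δ : Type*} [Group Δ]
    (ρ : Δ → Pt a b → Pt a b) (Δ0 : Subgroup Δ) : Prop :=
  ∀ δ ∈ Δ0, ∀ x ∈ Dom D b,
    (∀ (j : Fin b) (k : Fin a ⊕ Fin b), k ≠ Sum.inr j → Jac (ρ δ) x k (Sum.inr j) = 0) ∧
    ∀ (i : Fin a) (j : Fin b), Jac (ρ δ) x (Sum.inr j) (Sum.inl i) = 0

/-- The derivative `∂ f / ∂ x_k = (∂ f / ∂ Re x_k - i ∂ f / ∂ Im x_k) / 2`. -/
noncomputable def partialZ {a b : ℕ} (k : Fin a ⊕ Fin b) (f : Pt a b → ℂ) (x : Pt a b) : ℂ :=
  (fderiv ℝ f x (Pi.single k 1) - Complex.I * fderiv ℝ f x (Pi.single k Complex.I)) / 2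

/-- `i ∑ g_{jk} d x_j ∧ d \bar x_k` is a Kähler form on the quotient: the matrix `g` is of class
`C^1` and positive definite, the form is closed and it is invariant under `Δ`. -/
structure IsKahler {a b : ℕ} (D : Set (Fin a → ℂ)) {Δ : Type*} [Group Δ]
    (ρ : Δ → Pt a b → Pt a b)
    (g : Pt a b → Matrix (Fin a ⊕ Fin b) (Fin a ⊕ Fin b) ℂ) : Prop where
  smooth : ∀ i j, ContDiffOn ℝ 1 (fun x => g x i j) (Dom D b)
  pos : ∀ x ∈ Dom D b, (g x).PosDef
  closed : ∀ x ∈ Dom D b, ∀ i j k,
    partialZ i (fun y => g y j k) x = partialZ j (fun y => g y i k) x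
  invariant : ∀ δ, ∀ x ∈ Dom D b,
    (Jac (ρ δ) x)ᵀ * g (ρ δ x) * (Jac (ρ δ) x).map star = g x

/-- `F (dx_1 ∧ ... ∧ dx_n)^l` is a section of the `l`-th power of the canonical bundle of the
quotient. -/
def IsPluricanonical {a b : ℕ} (D : Set (Fin a → ℂ)) {Δ : Type*} [Group Δ]
    (ρ : Δ → Pt a b → Pt a b) (l : ℕ) (F : Pt a b → ℂ) : Prop :=
  DifferentiableOn ℂ F (Dom D b) ∧
    ∀ δ, ∀ x ∈ Dom D b, F (ρ δ x) * (Jac (ρ δ) x).det ^ l = F x

/-- **Abundance.** Let `D` be a bounded domain of `ℂ^a`. If the compact quotient `X` of `D × ℂ^b` by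
`Δ` is Kähler and the splitting of the tangent bundle into `T_D` and the coordinate lines of `ℂ^b`
descends to a finite etale cover of `X`, then the canonical bundle of `X` is semiample: some power
of it is globally generated. -/
theorem result {a b : ℕ} {D : Set (Fin a → ℂ)} (hD : IsBoundedDomain D) {Δ : Type*} [Group Δ]
    (ρ : Δ → Pt a b → Pt a b) (hρ : IsUniform D ρ) (Δ0 : Subgroup Δ) (hfin : Δ0.FiniteIndex)
    (hsplit : PreservesSplitting D ρ Δ0)
    (g : Pt a b → Matrix (Fin a ⊕ Fin b) (Fin a ⊕ Fin b) ℂ) (hg : IsKahler D ρ g) :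
    ∃ l : ℕ, 1 ≤ l ∧ ∀ x ∈ Dom D b, ∃ F, IsPluricanonical D ρ l F ∧ F x ≠ 0 := by
  obtain ⟨R, hR⟩ := hD.bounded.exists_norm_le
  have h1 : H906.BD.HolAct (H906.BD.Tot D (Fin b)) ρ := ⟨hρ.maps, hρ.one, hρ.mul, hρ.hol⟩
  have h2 : H906.BD.Kahler (H906.BD.Tot D (Fin b)) g := ⟨hg.smooth, hg.pos, hg.closed⟩
  have h3 : H906.BD.InvForm (H906.BD.Tot D (Fin b)) ρ g := hg.invariant
  obtain ⟨l, hl, h4⟩ := H906.BD.abundance hD.isOpen hD.connected.isPreconnected
    hD.connected.nonempty hR h1 hρ.properlyDiscontinuous hρ.cocompact hfin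
    (fun δ hδ x hx j i => (hsplit δ hδ x hx).2 i j)
    (fun δ hδ x hx j j' hjj => (hsplit δ hδ x hx).1 j' (Sum.inr j) fun h => hjj (Sum.inr_injective h))
    h2 h3
  exact ⟨l, hl, fun x hx => (h4 x hx).imp fun F hF => ⟨⟨hF.1, hF.2.1⟩, hF.2.2⟩⟩

end Pool.Agent.Results.MP_97d78d_ag.BoundedDomainTimesCb
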