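import Mathlib
import Pool.Agent.H890.Smo3

/-!
MP_97d78d_ag, Q1 in the projective case: adjoint bundles. Semiampleness of the nef canonical bundles
of projective manifolds implies (is equivalent to) semiampleness of the nef adjoint bundles
`K_X + Λ` on projective manifolds `X`, `Λ` being a line bundle such that some multiple `N Λ`,
`N ≥ 3`, has a smooth divisor.
-/

set_option autoImplicit false

namespace Pool.Agent.Results.MP_97d78d_ag.FermatBundlesSemiample

open FF Pool.Agent.Y172 Pool.Agent.R887 Pool.Agent.H890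

/-- (1) Let `X` be a projective manifold over `ℂ` of dimension `n ≥ 1` with function field `K` (`y`
is its generic point, in homogeneous coordinates). Let `D` be a smooth divisor on `X` (it may be zero
or disconnected) which is linearly equivalent to `N Λ`, `Λ` being a divisor, `N = r + 2 ≥ 3`, the
divisor of the function `s` being `D - N Λ`. Then there is a projective manifold `V` of dimension
`n + N - 2`, with generic point `v` and function field `M`, with the following properties.

* `M` is the function field of the Fermat hypersurface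
  `z_0 ^ N + s z_1 ^ N + z_2 ^ N + … + z_{N-1} ^ N = 0` in `P ^ (N - 1)` over `K`.
* `K_V` is nef if `K_X + (1 / N) D` is nef.
* `K_V` is semiample if and only if `K_X + (1 / N) D` is semiample.

(2) Hence Q1 for projective manifolds (of all dimensions `≥ 1`) is equivalent to the following: if
`X, D, Λ, N` are as in (1) and `K_X + (1 / N) D` (which is `ℚ`-linearly equivalent to the adjoint
divisor `K_X + Λ`) is nef, then it is semiample. -/
theorem result :
    (∀ (K : Type) [Field K] [Algebra ℂ K] (n r N : ℕ) (y : Fin (N + 1) → K)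
      (D Λ : Place ℂ K → ℤ) (s : K), Algebra.trdeg ℂ K = n → 1 ≤ n → 1 ≤ r →
      NormalModel y → SmoothPair y n D → Divides y n (r + 2) D Λ s →
      ∃ (M : Type) (_ : Field M) (_ : Algebra ℂ M) (_ : Algebra K M) (_ : IsScalarTower ℂ K M)
        (z : Fin (r + 2) → M) (N' : ℕ) (v : Fin (N' + 1) → M), FermatField K s r 1 z ∧
        NormalModel v ∧ Algebra.trdeg ℂ M = (n + r : ℕ) ∧ SmoothVariety v (n + r) ∧
        (LogNef y n (fun P => (1 : ℚ) / (r + 2 : ℕ) * D P) → CanonicalNef v (n + r)) ∧
        (LogSemiample v (n + r) 0 ↔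
          LogSemiample y n (fun P => (1 : ℚ) / (r + 2 : ℕ) * D P))) ∧
    ((∀ (K : Type) [Field K] [Algebra ℂ K] (n N : ℕ) (y : Fin (N + 1) → K),
        Algebra.trdeg ℂ K = n → 1 ≤ n → NormalModel y → SmoothVariety y n → CanonicalNef y n →
        LogSemiample y n 0) ↔
      ∀ (K : Type) [Field K] [Algebra ℂ K] (n r N : ℕ) (y : Fin (N + 1) → K)
        (D Λ : Place ℂ K → ℤ) (s : K), Algebra.trdeg ℂ K = n → 1 ≤ n → 1 ≤ r →
        NormalModel y → SmoothPair y n D → Divides y n (r + 2) D Λ s →
        LogNef y n (fun P => (1 : ℚ) / (r + 2 : ℕ) * D P) →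
        LogSemiample y n (fun P => (1 : ℚ) / (r + 2 : ℕ) * D P)) := by
  refine ⟨fun K _ _ n r N y D Λ s hn hn1 hr hy hsm hD => ?_, ⟨fun h => ?_, fun h => ?_⟩⟩
  · obtain ⟨M, _, _, _, _, z, N', v, h1, h2, h3⟩ := fermat_smooth K hr hn1 hn hy hD hsm
    exact ⟨M, _, _, _, ‹_›, z, N', v, h1, h2.normal, h2.trdeg, h3, h2.nef, h2.semiample⟩
  · intro K _ _ n r N y D Λ s hn hn1 hr hy hsm hD hnef
    obtain ⟨M, _, _, _, _, z, N', v, h1, h2, h3⟩ := fermat_smooth K hr hn1 hn hy hD hsm
    exact h2.semiample.1 (h M _ N' v h2.trdeg (by omega) h2.normal h3 (h2.nef hnef))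
  · intro K _ _ n N y hn hn1 hy hsm hnef
    have h1 := h K n 1 N y 0 0 1 hn hn1 le_rfl hy (smoothPair_zero hy hsm) (divides_zero y n 3)
    have h2 : (fun P : Place ℂ K => (1 : ℚ) / (1 + 2 : ℕ) *
        (((0 : Place ℂ K → ℤ) P : ℤ) : ℚ)) = 0 := by
      funext P
      simp
    rw [h2] at h1
    exact h1 (logNef_zero.2 hnef)

end Pool.Agent.Results.MP_97d78d_ag.FermatBundlesSemiample
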