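import Pool.Agent.H896.IL.Fct

/-!
# Abundance for complete intersections in flat bundles of products of projective spaces over complex
tori, and for their quotients

Let `V = ℂ^n`, `F = P^{r_1} × ... × P^{r_c}`, and let `Γ` be any group of holomorphic isometries of `V × F`
which acts properly discontinuously with a compact quotient `Y = (V × F) / Γ`. The group may have fixed
points, contain reflections and permute the factors of `F`, and its elements act on `F` by arbitrary
unitary transformations. So `Y` is a quotient by a finite group of a fibre product of projective bundles
`P (E_j)` over a complex torus, algebraic or not, which come from arbitrary projectively unitary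
representations of the lattice; the `E_j` need not be direct sums of line bundles, nor exist as vector
bundles. Let `Z_1, ..., Z_N` be smooth hypersurfaces of `V × F` with normal crossings (`N = 1`: any smooth
hypersurface), of arbitrary classes, such that `∑ Z_i` is invariant under `Γ`.

The theorem with `q = b i = 1`: if `K + ∑ Z_i` is nef, that is, if it has nonnegative degrees on the factors
of `F`, then it is semiample on `Y`.

Manifolds. Assume that `Γ` maps `Z̃ = ⋂ Z_i` to itself and acts freely on `Z̃` (not necessarily on
`V × F`). Then `Z = Z̃ / Γ` is a compact Kähler manifold of dimension `n + ∑ r_j - N`, in general not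
algebraic. If `s` is one of the sections of `M (K + ∑ Z_i)`, `M` even, in the theorem then
`s (Res (dv Ω / ∏ β i)) ^ M` is an invariant `M`-canonical form on `Z̃`, which vanishes exactly where `s`
does. So `K_Z ^ M` is generated by its global sections: `K_Z` is semiample. (If `Γ` does not act freely on
`Z̃` then this says that `K_Z + Δ` is semiample for the klt variety `Z = Z̃ / Γ` and its branch divisor `Δ`.)
In the same way `K_W + ∑_{i ∉ J} Z_i|_W` is semiample for each stratum `W = ⋂_{i ∈ J} Z_i / Γ_J`. Special
cases: the smooth complete intersections in complex tori which are invariant under a group of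
automorphisms of the torus, and their quotients; the quotients of Godeaux and Serre of complete
intersections in products of projective spaces; and the families of all these over complex tori, twisted
by a projectively unitary representation.

Other coefficients. For `1 ≤ b i ≤ q` the theorem says that `K + ∑ (b i / q) Z_i` is semiample if it is nef.
The adjunction with the hypersurfaces with `b i = q` gives pairs `(Z, ∑ (b i / q) Z_i|_Z)`, and the
coefficients `1 - 1 / q_i` occur if `K_M` is the pullback of `K_Z + ∑ (1 - 1 / q_i) Z_i|_Z` for an abelian
cover `M`, `t_i ^ {q_i} = β i`, of `Z`.

The proof. The pairs are log canonical but not klt, so that the method of `MP_e23cd6_ag` (there are no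
one-parameter groups which preserve the pair) cannot be used: these groups exist, and their fixed points
may be contained in the `Z_i`. Hall's marriage theorem for the matrix of the differentials at a vertex
gives that the discrepancies of the monomial valuations are at least `-1` (`IL/Disc.lean`). This inequality
for the two opposite valuations of a one-parameter group which preserves all the `Z_i` gives an identity
for its weights (`weight_rel`), for each choice of coordinates which are not zero at a point (a vertex of
the moment polytope). By this identity a multiple of the character, which obstructs the existence of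
sections on the coordinate section `V → V × F` of the vertex, is a combination of differences of exponents
of monomials of the equation, on which it is trivial (`IL/Free.lean`); and so it is a root of unity.
There are such coordinates for a subgroup of finite index by a theorem on virtually abelian groups, and
the powers of the line bundle descend to `Y`, since the stabilisers have a common exponent
(`IL/Exp.lean`, `IL/Lin.lean`).

The definitions are in `Pool.Agent.H896.IL.Stmt`, `IsIsometryGroup` in `Pool.Agent.H896.IQ.Stmt`, and `Co`,
`IsPt`, `mulBy`, `Trans`, `onV`, `onZ`, `jac` and `IsEffective` in `Pool.Agent.T2H08.FQ.Stmt` of the library.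
-/

set_option autoImplicit false

namespace Pool.Agent.Results.MP_97d78d_ag.IsometryCompleteIntersections

open Pool.Agent.T2H08.FB (Co IsPt Trans IsEffective)
open Pool.Agent.H896.IG

/-- Let `Γ` be a discrete cocompact group of holomorphic isometries of `V × F`, `V = ℂ^n`,
`F = P^{r 0} × ... × P^{r (c - 1)}`, let the equations `β i`, `i < N`, define smooth hypersurfaces `Z_i` of
`V × F` with normal crossings, let `1 ≤ b i ≤ q`, and let the divisor `∑ b i Z_i` be invariant under `Γ`, with
the factor of automorphy `e` and the Chern form `H` in the directions of `V`. If the degrees of
`q K + ∑ b i Z_i` on the factors of `F` are not negative, then there is an even `M ≥ 1` such that the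
sections of `M (q K + ∑ b i Z_i)` which are invariant under `Γ` have no common zero on `V × F`. -/
theorem result {n c N : ℕ} {r : Fin c → ℕ} (Γ : Subgroup (Trans n r)) (hΓ : IsIsometryGroup Γ)
    (β : Fin N → (Fin n → ℂ) → MvPolynomial (Co r) ℂ) (κ : Fin N → Fin c → ℕ)
    (hβ : ∀ i, IsEffective (β i) (κ i)) (hnc : IsNormalCrossing β) (q : ℕ) (hq : 1 ≤ q)
    (b : Fin N → ℕ) (hb : ∀ i, 1 ≤ b i ∧ b i ≤ q) (e : Trans n r → (Fin n → ℂ) → ℂ)
    (he : IsFactor Γ β b e) (H : (Fin n → ℂ) → (Fin n → ℂ) → ℂ) (hH : HasChernForm Γ e H)
    (hnef : ∀ j, q * (r j + 1) ≤ ∑ i, b i * κ i j) :
    ∃ M : ℕ, 1 ≤ M ∧ Even M ∧ ∀ v z, IsPt z → ∃ s, IsLogForm Γ β κ q b M s ∧ s v z ≠ 0 :=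
  semiample_snc hΓ hβ hnc hq hb he hH hnef

end Pool.Agent.Results.MP_97d78d_ag.IsometryCompleteIntersections
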