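import Pool.Agent.H837.AB.Qbar

/-!
# Abundance for smooth projective varieties, and bounded statements in large characteristic

Abundance for all smooth projective minimal varieties of dimension `n` over the complex numbers is
equivalent to each of the following uniform statements, in which the bound `c` depends only on the
dimension, the codimension `e`, the number `N` and the degrees `δ i` of the forms `F i` which define
the variety, and the degrees `b` of the equations of open sets: over all algebraically closed fields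
outside finitely many characteristics; over the field of algebraic numbers; over the algebraic
closures of the prime fields `F_l` for all large `l`; for infinitely many `l`.
-/

set_option autoImplicit false

namespace Pool.Agent.Results.MP_97d78d_ag.ProjectiveLargeCharacteristic

open MvPolynomial Pool.Agent.H837.AB

/-- **Abundance in dimension `n`, bounded degrees, and closures of finite fields.** -/
theorem result (n : ℕ) :
    [∀ (K : Type) [Field K] [IsAlgClosed K] [CharZero K], Abundance n K,
     Abundance n ℂ,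
     ∀ (e N b : ℕ) (δ : Fin N → ℕ), ∃ c M : ℕ, M ≠ 0 ∧
       ∀ (K : Type) [Field K] [IsAlgClosed K], (M : K) ≠ 0 →
       ∀ F : Fin N → MvPolynomial (Fin (n + e + 1)) K, (∀ i, (F i).IsHomogeneous (δ i)) →
         SmoothBy e b F → (∀ k ≤ c, NefAt e k δ F) → SemiampleBy e c δ F,
     ∀ (e N b : ℕ) (δ : Fin N → ℕ), ∃ c : ℕ,
       ∀ F : Fin N → MvPolynomial (Fin (n + e + 1)) (AlgebraicClosure ℚ),
         (∀ i, (F i).IsHomogeneous (δ i)) → SmoothBy e b F → (∀ k ≤ c, NefAt e k δ F) →
           SemiampleBy e c δ F,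
     ∀ (e N b : ℕ) (δ : Fin N → ℕ), ∃ c ℓ₀ : ℕ, ∀ (ℓ : ℕ) [Fact ℓ.Prime], ℓ₀ ≤ ℓ →
       ∀ F : Fin N → MvPolynomial (Fin (n + e + 1)) (AlgebraicClosure (ZMod ℓ)),
         (∀ i, (F i).IsHomogeneous (δ i)) → SmoothBy e b F → (∀ k ≤ c, NefAt e k δ F) →
           SemiampleBy e c δ F,
     ∀ (e N b : ℕ) (δ : Fin N → ℕ), ∃ c : ℕ, ∀ ℓ₀ : ℕ, ∃ (ℓ : ℕ) (_ : Fact ℓ.Prime), ℓ₀ ≤ ℓ ∧
       ∀ F : Fin N → MvPolynomial (Fin (n + e + 1)) (AlgebraicClosure (ZMod ℓ)),
         (∀ i, (F i).IsHomogeneous (δ i)) → SmoothBy e b F → (∀ k ≤ c, NefAt e k δ F) →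
           SemiampleBy e c δ F].TFAE :=
  abundance_tfae_qbar n

end Pool.Agent.Results.MP_97d78d_ag.ProjectiveLargeCharacteristic
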